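import Mathlib
import Pool.Agent.Q284.NP.Stm

set_option autoImplicit false

/-! Project NP of helper284 (job FIN): a local ring of a finitely generated algebra over a perfect field is finite over its
`p`-th powers. -/

namespace Pool.Agent.Q96.NP

open Pool.Agent.Q284.NP
open scoped TensorProduct

theorem fin : S_FIN := by
  intro p _ K B A _ _ _ _ _ _ _ Q _ _ hK
  have hp : 0 < p := (Fact.out : p.Prime).pos
  obtain ⟨r, φ, hφ⟩ := (Algebra.FiniteType.iff_quotient_mvPolynomial'' (R := K) (S := B)).1 inferInstance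
  have : Nontrivial A := (IsLocalization.AtPrime.isLocalRing A Q).toNontrivial
  let ψ : MvPolynomial (Fin r) K →+* A := (algebraMap B A).comp φ.toRingHom
  have : CharP A p := by
    have : Function.Injective (ψ.comp (MvPolynomial.C : K →+* MvPolynomial (Fin r) K)) := RingHom.injective _
    exact charP_of_injective_ringHom this p
  have key : ∀ f : MvPolynomial (Fin r) K, ∃ c : (Fin r → Fin p) → A,
      ψ f = ∑ α, c α ^ p * ∏ i, ψ (MvPolynomial.X i) ^ (α i : ℕ) := by
    intro f
    induction f using MvPolynomial.induction_on' with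
    | monomial u a =>
      obtain ⟨a', ha'⟩ := hK a
      let α : Fin r → Fin p := fun i => ⟨u i % p, Nat.mod_lt _ hp⟩
      refine ⟨Pi.single α (ψ (MvPolynomial.monomial (u.mapRange (fun k => k / p) (Nat.zero_div p)) a')), ?_⟩
      rw [Finset.sum_eq_single α]
      · rw [Pi.single_eq_same, ← map_pow, MvPolynomial.monomial_eq, MvPolynomial.monomial_eq, map_mul, ← ha', mul_pow,
          map_mul, ← map_pow, mul_assoc]
        congr 1
        simp only [Finsupp.prod_fintype _ _ (fun i => pow_zero _), Finsupp.mapRange_apply, map_prod, map_pow,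
          ← Finset.prod_pow, ← Finset.prod_mul_distrib]
        refine Finset.prod_congr rfl fun i _ => ?_
        rw [← pow_mul, ← pow_add]
        congr 1
        simp only [α]
        exact (Nat.div_add_mod' (u i) p).symm
      · intro β _ hβ
        rw [Pi.single_eq_of_ne hβ, zero_pow hp.ne', zero_mul]
      · intro h; exact absurd (Finset.mem_univ _) h
    | add f g hf hg =>
      obtain ⟨c, hc⟩ := hf
      obtain ⟨c', hc'⟩ := hg
      refine ⟨c + c', ?_⟩
      rw [map_add, hc, hc', ← Finset.sum_add_distrib]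
      refine Finset.sum_congr rfl fun α _ => ?_
      rw [Pi.add_apply, add_pow_char, add_mul]
  let e := Fintype.equivFin (Fin r → Fin p)
  refine ⟨Fintype.card (Fin r → Fin p), fun j => ∏ i, ψ (MvPolynomial.X i) ^ ((e.symm j) i : ℕ), ?_⟩
  intro a
  obtain ⟨⟨b, s⟩, hbs⟩ := IsLocalization.surj Q.primeCompl a
  have hs : IsUnit (algebraMap B A s) := IsLocalization.map_units A s
  obtain ⟨v, hv⟩ := hs
  obtain ⟨f, hf⟩ := hφ (b * (s : B) ^ (p - 1))
  obtain ⟨c, hc⟩ := key f
  refine ⟨fun j => (↑v⁻¹ : A) * c (e.symm j), ?_⟩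
  have h1 : ψ f = (v : A) ^ p * a := by
    change algebraMap B A (φ f) = _
    rw [hf, map_mul, map_pow]
    simp only at hbs
    rw [← hbs, ← hv, mul_assoc, ← pow_succ', Nat.sub_add_cancel hp, mul_comm]
  have h2 : a = (↑v⁻¹ : A) ^ p * ψ f := by
    rw [h1, ← mul_assoc, ← mul_pow, Units.inv_mul, one_pow, one_mul]
  rw [h2, hc, Finset.mul_sum, ← e.symm.sum_comp]
  refine Finset.sum_congr rfl fun j _ => ?_
  rw [mul_pow]; ring

end Pool.Agent.Q96.NP
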