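import Mathlib
import Pool.Agent.Q284.NP.Stm

set_option autoImplicit false

/-! Project NP of helper284 (job IND): independence of the monomials over the p-th powers. -/

namespace Pool.Agent.Q96.NP

open Pool.Agent.Q284.NP
open scoped TensorProduct

variable {A : Type} [CommRing A]

/-- constants of a derivation: sums, products and powers -/
lemma d_pow_zero (d : Derivation ℤ A A) {z : A} (h : d z = 0) (k : ℕ) : d (z ^ k) = 0 := by
  rw [Derivation.leibniz_pow, h]; simp

lemma d_ppow (p : ℕ) [CharP A p] (d : Derivation ℤ A A) (z : A) : d (z ^ p) = 0 := by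
  rw [Derivation.leibniz_pow, nsmul_eq_mul, CharP.cast_eq_zero, zero_mul]

/-- one variable: if the coefficients are constants of `d` and `d x = 1`, then a polynomial in `x` of degree
less than `p` vanishes only if all its coefficients vanish -/
lemma one_var (p : ℕ) [Fact p.Prime] [IsDomain A] [CharP A p] (d : Derivation ℤ A A) (x : A) (hx : d x = 1) :
    ∀ m : ℕ, m ≤ p → ∀ z : ℕ → A, (∀ j, d (z j) = 0) → ∑ j ∈ Finset.range m, z j * x ^ j = 0 →
      ∀ j < m, z j = 0 := by
  intro m
  induction m with
  | zero => intro _ z _ _ j hj; omega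
  | succ m ih =>
    intro hm z hz h
    have h1 : ∑ j ∈ Finset.range m, ((j + 1 : ℕ) : A) * z (j + 1) * x ^ j = 0 := by
      have h2 := congrArg d h
      rw [map_zero, map_sum, Finset.sum_range_succ'] at h2
      simp only [Derivation.leibniz, pow_zero, Derivation.leibniz_pow, hz, hx, smul_eq_mul, mul_zero, add_zero,
        mul_one] at h2
      rw [← h2]
      refine Finset.sum_congr rfl fun j _ => ?_
      simp only [Nat.add_sub_cancel, nsmul_eq_mul]
      ring
    have h3 := ih (by omega) (fun j => ((j + 1 : ℕ) : A) * z (j + 1)) (fun j => by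
      rw [Derivation.leibniz, hz, smul_zero, zero_add, Derivation.map_natCast, smul_zero]) h1
    have h4 : ∀ j < m, z (j + 1) = 0 := by
      intro j hj
      rcases mul_eq_zero.1 (h3 j hj) with h5 | h5
      · exfalso
        rw [CharP.cast_eq_zero_iff A p] at h5
        exact absurd (Nat.le_of_dvd (by omega) h5) (by omega)
      · exact h5
    intro j hj
    rcases j with _ | j
    · rw [Finset.sum_range_succ'] at h
      rw [Finset.sum_eq_zero (fun i hi => by rw [h4 i (Finset.mem_range.1 hi), zero_mul])] at h
      simpa using h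
    · exact h4 j (by omega)

lemma multi (p : ℕ) [Fact p.Prime] [IsDomain A] [CharP A p] : ∀ (n : ℕ) (x : Fin n → A) (d : Fin n → Derivation ℤ A A),
    (∀ i j, d i (x j) = if i = j then 1 else 0) →
    ∀ c : (Fin n → Fin p) → A, ∑ α, c α ^ p * ∏ i, x i ^ (α i : ℕ) = 0 → ∀ α, c α = 0 := by
  intro n
  induction n with
  | zero =>
    intro x d _ c h α
    have h1 : (Finset.univ : Finset (Fin 0 → Fin p)) = {α} := by
      ext β
      simp only [Finset.mem_univ, Finset.mem_singleton, true_iff]
      exact Subsingleton.elim β α
    rw [h1, Finset.sum_singleton, Finset.univ_eq_empty, Finset.prod_empty, mul_one] at h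
    exact (pow_eq_zero_iff (Fact.out : p.Prime).pos.ne').1 h
  | succ n ih =>
    intro x d hd c h
    have hp : 0 < p := (Fact.out : p.Prime).pos
    set w : ℕ → A := fun j => if hj : j < p then
      ∑ β : Fin n → Fin p, c (Fin.cons ⟨j, hj⟩ β) ^ p * ∏ i, x (Fin.succ i) ^ (β i : ℕ) else 0 with hw
    have hwd : ∀ j, d 0 (w j) = 0 := by
      intro j
      simp only [hw]
      split_ifs with hj
      · rw [map_sum]
        refine Finset.sum_eq_zero fun β _ => ?_
        rw [Derivation.leibniz, d_ppow, smul_zero, add_zero]
        have : d 0 (∏ i : Fin n, x (Fin.succ i) ^ (β i : ℕ)) = 0 := by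
          induction (Finset.univ : Finset (Fin n)) using Finset.induction_on with
          | empty => simp
          | insert a s ha ih2 =>
            rw [Finset.prod_insert ha, Derivation.leibniz, ih2, smul_zero, zero_add,
              d_pow_zero (d 0) (by rw [hd]; simp [(Fin.succ_ne_zero a).symm]), smul_zero]
        rw [this, smul_zero]
      · simp
    have hsum : ∑ j ∈ Finset.range p, w j * x 0 ^ j = 0 := by
      rw [← h, ← (Fin.consEquiv (fun _ : Fin (n + 1) => Fin p)).sum_comp, Fintype.sum_prod_type, Finset.sum_range]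
      refine Finset.sum_congr rfl fun j _ => ?_
      simp only [hw, j.2, dif_pos, Fin.eta, Finset.sum_mul]
      refine Finset.sum_congr rfl fun β _ => ?_
      rw [Fin.prod_univ_succ]
      change _ = c (Fin.cons j β) ^ p * (x 0 ^ (j : ℕ) * ∏ i : Fin n, x i.succ ^ (β i : ℕ))
      ring
    have h1 := one_var p (d 0) (x 0) (by rw [hd]; simp) p le_rfl w hwd hsum
    have h2 : ∀ j : Fin p, ∀ β : Fin n → Fin p, c (Fin.cons j β) = 0 := by
      intro j
      have h3 := h1 j j.2
      simp only [hw, j.2, dif_pos, Fin.eta] at h3
      exact ih (fun i => x i.succ) (fun i => d i.succ) (fun i k => by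
        rw [hd]; simp [Fin.succ_inj]) (fun β => c (Fin.cons j β)) h3
    intro α
    have := h2 (α 0) (Fin.tail α)
    rwa [Fin.cons_self_tail] at this

theorem ind : S_IND := by
  intro p _ K A _ _ _ _ _ n x b hb c h
  let d : Fin n → Derivation ℤ A A := fun i =>
    ((KaehlerDifferential.linearMapEquivDerivation K A) (b.coord i)).restrictScalars ℤ
  refine multi p n x d (fun i j => ?_) c h
  change (KaehlerDifferential.linearMapEquivDerivation K A) (b.coord i) (x j) = _
  rw [KaehlerDifferential.linearMapEquivDerivation_apply_apply, ← hb j]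
  simp [Finsupp.single_apply, eq_comm]

end Pool.Agent.Q96.NP
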