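import Mathlib
import Pool.Agent.Q284.NP.Stm

set_option autoImplicit false

/-! Project NP of helper284 (job OMG): the differentials of a local ring of a smooth algebra have a basis of exact differentials. -/

namespace Pool.Agent.Q96.NP

open Pool.Agent.Q284.NP
open scoped TensorProduct

theorem omg : S_OMG := by
  intro K B A _ _ _ _ _ _ _ _ Q _ _
  have : IsLocalRing A := IsLocalization.AtPrime.isLocalRing A Q
  have : Algebra.FormallySmooth B A := Algebra.FormallySmooth.of_isLocalization Q.primeCompl
  have : Algebra.FormallySmooth K B := inferInstance
  have : Algebra.FormallySmooth K A := Algebra.FormallySmooth.comp K B A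
  have : Algebra.EssFiniteType B A := Algebra.EssFiniteType.of_isLocalization A Q.primeCompl
  have : Algebra.EssFiniteType K B := inferInstance
  have : Algebra.EssFiniteType K A := Algebra.EssFiniteType.comp K B A
  have : Module.Projective A Ω[A⁄K] := Algebra.FormallySmooth.projective_kaehlerDifferential
  have : Module.FinitePresentation A Ω[A⁄K] := Module.finitePresentation_of_projective A _
  obtain ⟨κ, a, b, hb⟩ := Module.exists_basis_of_span_of_flat (R := A) (M := Ω[A⁄K])
    (fun z : A => KaehlerDifferential.D K A z) (KaehlerDifferential.span_range_derivation K A)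
  have : Finite κ := Module.Finite.finite_basis b
  obtain ⟨n, ⟨e⟩⟩ := Finite.exists_equiv_fin κ
  exact ⟨n, fun i => a (e.symm i), b.reindex e, fun i => by simp [hb]⟩

end Pool.Agent.Q96.NP
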